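import Pool.Agent.TH6.PF.LNear

set_option autoImplicit false

/-! For every group `G`, every orientation character `w` and every ring with involution `R`, `√2` is
the exact critical distance (measured by the norm of the symmetrised support pattern) from the
hyperbolic form for nonsingular quadratic forms over `RG`: closer forms are hyperbolic, and at
distance at most `√2` every class of the even `L`-groups is represented. -/

namespace Pool.Agent.Results.MP_c13a79_gt.DistanceRootTwo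

open TH57.Thr TH6.LF TH6.PF Matrix

theorem result (R : Type) [Ring R] [StarRing R] (G : Type) [Group G] (w : G →* ℤˣ)
    (ε : ℤ) (hε : ε = 1 ∨ ε = -1) :
    (∀ (k : ℕ) (ψ : Matrix (Fin k ⊕ Fin k) (Fin k ⊕ Fin k) (MonoidAlgebra R G)) (c : ℝ),
      c ^ 2 < 2 → IsUnit (ψ + ε • sadj w ψ) →
      NormLE (symPat (ψ - hyp (MonoidAlgebra R G) (Fin k))) c →
      ∃ (P : (Matrix (Fin k ⊕ Fin k) (Fin k ⊕ Fin k) (MonoidAlgebra R G))ˣ)
        (χ : Matrix (Fin k ⊕ Fin k) (Fin k ⊕ Fin k) (MonoidAlgebra R G)),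
        P.val * ψ * sadj w P.val = hyp (MonoidAlgebra R G) (Fin k) + (χ - ε • sadj w χ)) ∧
    (∀ (k : ℕ) (ψ : Matrix (Fin k ⊕ Fin k) (Fin k ⊕ Fin k) (MonoidAlgebra R G)),
      ∃ (m : ℕ) (P : (Matrix ((Fin k ⊕ Fin k) ⊕ (Fin m ⊕ Fin m))
          ((Fin k ⊕ Fin k) ⊕ (Fin m ⊕ Fin m)) (MonoidAlgebra R G))ˣ),
        P ∈ commutator (Matrix ((Fin k ⊕ Fin k) ⊕ (Fin m ⊕ Fin m))
          ((Fin k ⊕ Fin k) ⊕ (Fin m ⊕ Fin m)) (MonoidAlgebra R G))ˣ ∧
        NormLE (symPat (P.val * addHyp (Fin m) ψ * sadj w P.val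
          - addHyp (Fin m) (hyp (MonoidAlgebra R G) (Fin k)))) (Real.sqrt 2)) :=
  ⟨fun _ ψ c hc hu hN => near_formR w ε hε c hc ψ hu hN,
    fun _ ψ => form_distR_fin w ψ _⟩

end Pool.Agent.Results.MP_c13a79_gt.DistanceRootTwo
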